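import Mathlib

open ZMod

namespace Pool.Agent.H.MP_305ad1_co

def B {V W K : Type*} [CommRing K] (x y : V × W → K) (i j : V) (k l : W) : K :=
  x (i, k) * y (j, l) + y (i, k) * x (j, l) - x (i, l) * y (j, k) - y (i, l) * x (j, k)

lemma rec0 {p : ℕ} [NeZero p] (hp : Odd p) (ρ : ZMod p → ℂ) (η : ℂ) (h1 : ∀ a, ‖ρ a‖ = 1)
    (h2 : ∀ a, 0 < (ρ a).im) (h3 : ‖η‖ = 1) (h4 : η ≠ -1) (Z : ZMod p → ℂ)
    (h : ∀ a, (ρ a - η) * Z a = (1 - ρ a * η) * Z (a + 1)) : Z = 0 := by
  have key : ∀ a, ‖ρ a - η‖ ^ 2 - ‖1 - ρ a * η‖ ^ 2 = -4 * (ρ a).im * η.im := fun a => by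
    have e1 := h1 a
    have e3 := h3
    rw [← sq_eq_sq₀ (norm_nonneg _) zero_le_one, Complex.sq_norm, Complex.normSq_apply] at e1 e3
    simp only [Complex.sq_norm, Complex.normSq_apply, Complex.sub_re, Complex.sub_im,
      Complex.mul_re, Complex.mul_im, Complex.one_re, Complex.one_im]
    linear_combination (1 - (η.re * η.re + η.im * η.im)) * e1
  have hn : ∀ a, ‖ρ a - η‖ * ‖Z a‖ = ‖1 - ρ a * η‖ * ‖Z (a + 1)‖ := fun a => by
    rw [← norm_mul, h, norm_mul]
  obtain ⟨m, hm⟩ := Finite.exists_max fun a => ‖Z a‖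
  suffices ‖Z m‖ ≤ 0 from funext fun a => norm_le_zero_iff.1 ((hm a).trans this)
  rcases lt_trichotomy η.im 0 with h5 | h5 | h5
  · have : ‖1 - ρ m * η‖ < ‖ρ m - η‖ := lt_of_pow_lt_pow_left₀ 2 (norm_nonneg _) (by
      nlinarith [key m, mul_pos (h2 m) (neg_pos.2 h5)])
    nlinarith [hn m, hm (m + 1), norm_nonneg (1 - ρ m * η), norm_nonneg (Z m)]
  · have e : η = 1 := by
      have e3 := h3
      rw [← sq_eq_sq₀ (norm_nonneg _) zero_le_one, Complex.sq_norm, Complex.normSq_apply, h5] at e3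
      have : (η.re - 1) * (η.re + 1) = 0 := by linarith
      rcases mul_eq_zero.1 this with h6 | h6
      · exact Complex.ext (by simpa using sub_eq_zero.1 h6) (by simpa using h5)
      · exact absurd (Complex.ext (by simpa using eq_neg_of_add_eq_zero_left h6)
          (by simpa using h5)) h4
    have h6 : ∀ a, Z (a + 1) = -Z a := fun a => by
      have h7 : ρ a - 1 ≠ 0 := fun e => by
        have := h2 a
        rw [sub_eq_zero.1 e] at this
        simp at this
      refine mul_left_cancel₀ h7 ?_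
      have := h a
      rw [e] at this
      linear_combination this
    have h7 : ∀ k : ℕ, Z (m + k) = (-1) ^ k * Z m := fun k => by
      induction k with
      | zero => simp
      | succ k ih => rw [Nat.cast_succ, ← add_assoc, h6, ih]; ring
    have := h7 p
    rw [natCast_self, add_zero, hp.neg_one_pow] at this
    rw [show Z m = 0 by linear_combination this / 2, norm_zero]
  · have : ‖ρ (m - 1) - η‖ < ‖1 - ρ (m - 1) * η‖ := lt_of_pow_lt_pow_left₀ 2 (norm_nonneg _) (by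
      nlinarith [key (m - 1), mul_pos (h2 (m - 1)) h5])
    have h6 := hn (m - 1)
    rw [sub_add_cancel] at h6
    nlinarith [hm (m - 1), norm_nonneg (ρ (m - 1) - η), norm_nonneg (Z m)]

lemma im_pos {q : ℕ} [NeZero q] {k : ℕ} (h1 : 0 < k) (h2 : 2 * k < q) :
    0 < (stdAddChar (k : ZMod q) : ℂ).im := by
  have := stdAddChar_coe (N := q) (k : ℤ)
  rw [Int.cast_natCast] at this
  rw [this, show 2 * (Real.pi : ℂ) * Complex.I * ((k : ℤ) : ℂ) / q =
    ((2 * Real.pi * k / q : ℝ) : ℂ) * Complex.I by push_cast; ring, Complex.exp_ofReal_mul_I_im]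
  have hq : (0 : ℝ) < q := by exact_mod_cast (show 0 < q by omega)
  have h3 : (0 : ℝ) < k := by exact_mod_cast h1
  have h4 : 2 * (k : ℝ) < q := by exact_mod_cast h2
  refine Real.sin_pos_of_pos_of_lt_pi (by positivity) ?_
  rw [div_lt_iff₀ hq]
  nlinarith [Real.pi_pos]

lemma cx1 {p q : ℕ} [NeZero p] [NeZero q] (hp : Odd p) (hq : Odd q) (h3 : 3 ≤ p) (hpq : p ≤ q) :
    ∃ x : ZMod p × ZMod q → ℂ, ∀ y, (∀ a b, B x y a (a + 1) b (b + 1) = 0) → y = 0 := by
  obtain ⟨r, rfl⟩ := hp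
  obtain ⟨s, rfl⟩ := hq
  let c : ZMod (2 * r + 1) → ZMod (2 * s + 1) := fun a =>
    if a.val = 2 * r then (r + s : ℕ) else (a.val : ℕ)
  have hc : ∀ a, ∃ k : ℕ, 0 < k ∧ 2 * k < 2 * s + 1 ∧ c (a + 1) = c a + k := fun a => by
    have : Fact (1 < 2 * r + 1) := ⟨by omega⟩
    have ha := val_lt a
    have hv : (a + 1).val = (a.val + 1) % (2 * r + 1) := by rw [val_add, val_one]
    by_cases h1 : a.val = 2 * r
    · refine ⟨s - r + 1, by omega, by omega, ?_⟩
      rw [h1, Nat.mod_self] at hv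
      simp only [c, hv, h1, if_true]
      rw [if_neg (by omega), ← Nat.cast_add, show r + s + (s - r + 1) = 2 * s + 1 by omega,
        natCast_self, Nat.cast_zero]
    · rw [Nat.mod_eq_of_lt (by omega)] at hv
      by_cases h2 : a.val + 1 = 2 * r
      · refine ⟨s - r + 1, by omega, by omega, ?_⟩
        simp only [c, hv, h1, h2, if_true, if_false]
        rw [← Nat.cast_add]; congr 1; omega
      · refine ⟨1, one_pos, by omega, ?_⟩
        simp only [c, hv, h1, h2, if_false]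
        rw [← Nat.cast_add]
  choose k k1 k2 k3 using hc
  let ψ : AddChar (ZMod (2 * s + 1)) ℂ := stdAddChar
  have n1 : ∀ t, ‖ψ t‖ = 1 := fun t => Circle.norm_coe _
  have n0 : ∀ t, ψ t ≠ 0 := fun t => norm_ne_zero_iff.1 (by rw [n1]; exact one_ne_zero)
  refine ⟨fun u => ψ (c u.1 * u.2), fun y hy => ?_⟩
  let z : ZMod (2 * r + 1) → ZMod (2 * s + 1) → ℂ := fun a b => y (a, b) / ψ (c a * b)
  have hz : ∀ a b, y (a, b) = ψ (c a * b) * z a b := fun a b => (mul_div_cancel₀ _ (n0 _)).symm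
  have h1 : ∀ a b, ψ (k a) * (z a b + z (a + 1) (b + 1)) = z a (b + 1) + z (a + 1) b := by
    intro a b
    have := hy a b
    simp only [B, hz, k3, mul_add, add_mul, mul_one, AddChar.map_add_eq_mul] at this
    refine mul_left_cancel₀ (mul_ne_zero (mul_ne_zero (mul_ne_zero (n0 (c a * b)) (n0 (c a * b)))
      (n0 (k a * b))) (n0 (c a))) ?_
    linear_combination this
  have sh : ∀ (f : ZMod (2 * s + 1) → ℂ) t, dft (fun b => f (b + 1)) t = ψ t * dft f t := by
    intro f t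
    simp only [dft_apply, smul_eq_mul, Finset.mul_sum]
    refine Fintype.sum_equiv (Equiv.addRight 1) _ _ fun b => ?_
    rw [Equiv.coe_addRight, ← mul_assoc, ← AddChar.map_add_eq_mul]
    congr 2; ring
  have h2 : ∀ t, (fun a => dft (z a) t) = 0 := fun t => by
    refine rec0 ⟨r, rfl⟩ (fun a => ψ (k a)) (ψ t) (fun a => n1 _) (fun a => im_pos (k1 a) (k2 a))
      (n1 t) (fun h => ?_) _ fun a => ?_
    · have := ψ.map_nsmul_eq_pow (2 * s + 1) t
      rw [nsmul_eq_mul, natCast_self, zero_mul, AddChar.map_zero_eq_one, h, pow_succ, pow_mul]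
        at this
      norm_num at this
    · have e : ψ (k a) • (z a + fun b => z (a + 1) (b + 1)) = (fun b => z a (b + 1)) + z (a + 1) :=
        funext (h1 a)
      have := congrFun (congrArg dft e) t
      simp only [map_add, _root_.map_smul, Pi.add_apply, Pi.smul_apply, smul_eq_mul, sh] at this
      linear_combination this
  funext ⟨a, b⟩
  have : z a = 0 := dft.map_eq_zero_iff.1 (funext fun t => congrFun (h2 t) a)
  rw [hz, this]; simp

lemma cx {p q : ℕ} [NeZero p] [NeZero q] (hp : Odd p) (hq : Odd q) (h3 : 3 ≤ p) (h4 : 3 ≤ q) :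
    ∃ x : ZMod p × ZMod q → ℂ, ∀ y, (∀ a b, B x y a (a + 1) b (b + 1) = 0) → y = 0 := by
  rcases le_total p q with h | h
  · exact cx1 hp hq h3 h
  obtain ⟨x, hx⟩ := cx1 hq hp h4 h
  refine ⟨x ∘ Prod.swap, fun y hy => ?_⟩
  have := hx (y ∘ Prod.swap) fun a b => by
    rw [← hy b a]; simp only [B, Function.comp, Prod.swap]; ring
  exact funext fun u => congrFun this u.swap

def N {p q : ℕ} {R : Type*} [CommRing R] (x : ZMod p × ZMod q → R) :
    Matrix (ZMod p × ZMod q) (ZMod p × ZMod q) R :=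
  fun u c => B x (Pi.single c 1) u.1 (u.1 + 1) u.2 (u.2 + 1)

lemma N_mul {p q : ℕ} [NeZero p] [NeZero q] {R : Type*} [CommRing R] (x y : ZMod p × ZMod q → R)
    (u : ZMod p × ZMod q) : (N x).mulVec y u = B x y u.1 (u.1 + 1) u.2 (u.2 + 1) := by
  simp only [N, B, Matrix.mulVec, dotProduct, Pi.single_apply, add_mul, sub_mul, mul_ite, ite_mul,
    Finset.sum_add_distrib, Finset.sum_sub_distrib, mul_one, one_mul, mul_zero, zero_mul,
    Finset.sum_ite_eq, Finset.mem_univ, if_true]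
  ring

lemma N_det {p q : ℕ} [NeZero p] [NeZero q] {R S : Type*} [CommRing R] [CommRing S] (f : R →+* S)
    (x : ZMod p × ZMod q → R) : f (N x).det = (N fun u => f (x u)).det := by
  rw [RingHom.map_det]
  congr 1
  ext u c
  simp [N, B, Pi.single_apply, apply_ite f]

open MvPolynomial in
theorem gen (p q : ℕ) : ∃ c : ℕ, c ≠ 0 ∧ (Odd (p + 1) → Odd (q + 1) → 2 ≤ p → 2 ≤ q →
    ∀ (F V W : Type) [Field F], (c : F) ≠ 0 → ∀ (φ : ZMod (p + 1) → V) (ψ : ZMod (q + 1) → W),
    Function.Injective φ → Function.Injective ψ →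
    ∀ y : V × W → FractionRing (MvPolynomial (V × W) F),
    (∀ a b, B (fun u => algebraMap (MvPolynomial (V × W) F) _ (X u)) y (φ a) (φ (a + 1)) (ψ b)
      (ψ (b + 1)) = 0) → ∀ a b, y (φ a, ψ b) = 0) := by
  by_cases h : Odd (p + 1) ∧ Odd (q + 1) ∧ 2 ≤ p ∧ 2 ≤ q
  swap
  · exact ⟨1, one_ne_zero, fun h1 h2 h3 h4 => absurd ⟨h1, h2, h3, h4⟩ h⟩
  obtain ⟨x, hx⟩ := cx h.1 h.2.1 (by omega) (by omega)
  have h0 : (N (X : _ → MvPolynomial (ZMod (p + 1) × ZMod (q + 1)) ℤ)).det ≠ 0 := fun e => by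
    have := N_det (eval₂Hom (Int.castRingHom ℂ) x) X
    rw [e, map_zero] at this
    simp only [coe_eval₂Hom, eval₂_X] at this
    obtain ⟨y, h1, h2⟩ := Matrix.exists_mulVec_eq_zero_iff.2 this.symm
    exact h1 (hx y fun a b => (N_mul x y (a, b)).symm.trans (congrFun h2 _))
  obtain ⟨s, hs⟩ := ne_zero_iff.1 h0
  refine ⟨_, Int.natAbs_ne_zero.2 hs, fun _ _ _ _ F V W _ hc φ ψ hφ hψ y hy a b => ?_⟩
  let f := (algebraMap (MvPolynomial (V × W) F) (FractionRing (MvPolynomial (V × W) F))).comp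
    ((rename (Prod.map φ ψ)).toRingHom.comp (map (Int.castRingHom F)))
  have h1 : f (N X).det ≠ 0 := fun e => by
    have e1 := (rename_injective _ (hφ.prodMap hψ)).eq_iff' (map_zero _) |>.1
      ((IsFractionRing.injective (MvPolynomial (V × W) F) _).eq_iff' (map_zero _) |>.1 e)
    have := congrArg (coeff s) e1
    rw [coeff_map, coeff_zero] at this
    refine hc ?_
    rw [← Int.cast_natCast, Int.natCast_natAbs, abs_eq_max_neg]
    rcases max_choice (coeff s (N (X : _ → MvPolynomial (ZMod (p + 1) × ZMod (q + 1)) ℤ)).det)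
      (-coeff s (N X).det) with h2 | h2
    · rw [h2]; exact this
    · rw [h2, Int.cast_neg, neg_eq_zero]; exact this
  rw [N_det] at h1
  refine congrFun (Matrix.eq_zero_of_mulVec_eq_zero (v := fun u => y (φ u.1, ψ u.2)) h1
    (funext fun u => ?_)) (a, b)
  rw [N_mul, Pi.zero_apply, ← hy u.1 u.2]
  simp [B, f, Prod.map]

end Pool.Agent.H.MP_305ad1_co
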